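import Pool.Agent.K1H11.NS7.Phys7
import Pool.Agent.K1H52.L2.WeakForm

/-!
# Every divergence free Fourier series is the initial value of global smooth flows

Let `a` be any real divergence free Fourier series on the torus, without any condition on the size of its
coefficients (for instance a smooth datum, the zero datum, or a distribution), and let `w` be any global smooth
periodic solution of the Navier-Stokes equations with the same mean. There is a velocity field `U` on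
`(0, ∞) × ℝ³` which is a smooth solution on `(0, ∞)`, which satisfies `√t ‖U(t)‖_∞ → 0` as `t → 0` and
`∫_0^1 (√t ‖U(t)‖_∞)^s dt/t < ∞` for all `s > 2` (so `U ∈ L^p(0, 1; L^∞)` for all `p < 2`), which has the
initial value `a` in all critical spaces `FB^{-1}_{1,r}`, `r > 2`, to which `a` belongs and in all weighted `ℓ¹`
spaces of Fourier coefficients with weights at most `|k|^{-2}` to which `a` belongs, and which is within `ε` of
`w` from the time `ε` on. If moreover `a ∈ H⁻¹`, then `U(t) → a` in `H⁻¹` as `t → 0`, `U` is square integrable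
over space and bounded time intervals `(0, T)`, and `U` is a weak solution of the Cauchy problem with the initial
value `a` (the usual weak formulation, with test fields which need not vanish at the time zero). (It is known that
for smooth `a` the solution with `U(t) → a` in `FB^{-1}_{1,2}`, or with `∫_0^1 ‖U(t)‖_∞² dt < ∞`, is unique, so
the conditions `r > 2` and `s > 2` are sharp.)
-/

open MeasureTheory Set Filter Topology
open scoped ContDiff ENNReal

namespace Pool.Agent.Results.MP_6bf1e5_an.ArbitraryInitialValues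

open Pool.Agent.H356R3.NS (AdmissiblePeriodic R3 fc critNorm)
open Pool.Agent.K1H11.NS (TestField weakInt pairing)

/-- `a` is the sequence of the Fourier coefficients of a real, divergence free, `ℤ³`-periodic field with mean `m`.
There is no condition on the size of the coefficients. -/
structure DivFreeSeries (m : R3) (a : (Fin 3 → ℤ) → Fin 3 → ℂ) : Prop where
  real : ∀ k i, a (-k) i = star (a k i)
  divFree : ∀ k, ∑ i, (k i : ℂ) * a k i = 0
  mean : ∀ i, a 0 i = (m i : ℂ)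

/-- The square of the norm of `H⁻¹` of the part of the field with mean zero: the sum of `|a(k)|² / |k|²` over
`k ≠ 0`. -/
noncomputable def normHMinusOneSq (a : (Fin 3 → ℤ) → Fin 3 → ℂ) : ℝ≥0∞ :=
  ∑' k, if k = 0 then 0 else ‖a k‖ₑ ^ 2 / ENNReal.ofReal (∑ i, (k i : ℝ) ^ 2)

/-- Let `ν > 0`, `m ∈ ℝ³`, let `(w, q)` be an admissible (global smooth, unforced) periodic solution with mean `m`,
let `a` be a real divergence free Fourier series with mean `m` and let `ε > 0`. There is `U : ℝ → R3 → R3` such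
that
(i) for all `t₀ > 0` there is a pressure with which `t ↦ U(t₀ + t)`, `t ≥ 0`, is an admissible periodic solution
with initial velocity `U(t₀)`,
(ii) `|U(t) - w(t)| ≤ ε` at all times `t ≥ ε`, uniformly in space,
(iii) `√t ‖U(t)‖_∞ → 0` as `t → 0`, and `∫_0^1 (√t ‖U(t)‖_∞)^s dt/t < ∞` for all `s > 2`,
(iv) for all `r > 2` with `‖a‖ < ∞` in the critical Fourier-Besov space `FB^{-1}_{1,r}` we have `U(t) → a` in
`FB^{-1}_{1,r}` as `t → 0`,
(v) for all weights `ω ≥ 0` with `ω(k) ≤ |k|^{-2}` for `k ≠ 0` and `∑ ω(k) |a(k)| < ∞` we have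
`∑ ω(k) |fc (U t) k - a(k)| → 0` as `t → 0`,
(vi) if `a ∈ H⁻¹` then `U(t) → a` in `H⁻¹` as `t → 0`, `∫_0^T ∫ |U|² dx dt < ∞` for all `T`, and for all smooth
periodic divergence free test fields `φ` on `ℝ × ℝ³` which vanish for large times
`∫_0^∞ ∫ (U · ∂_t φ + ν U · Δφ + ∑ U_i U_j ∂_j φ_i) dx dt + ⟨a, φ(0)⟩ = 0`. -/
theorem result (ν : ℝ) (hν : 0 < ν) (m : R3) (w₀ : R3 → R3) (w : ℝ → R3 → R3) (q : ℝ → R3 → ℝ)
    (hw : AdmissiblePeriodic ν w₀ w q) (hm : ∀ i, ∫ x in Icc (0 : R3) 1, w₀ x i = m i)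
    (a : (Fin 3 → ℤ) → Fin 3 → ℂ) (ha : DivFreeSeries m a) (ε : ℝ) (hε : 0 < ε) :
    ∃ U : ℝ → R3 → R3,
      (∀ t₀ : ℝ, 0 < t₀ → ∃ p : ℝ → R3 → ℝ, AdmissiblePeriodic ν (U t₀) (fun t => U (t₀ + t)) p) ∧
      (∀ t : ℝ, ε ≤ t → ∀ x i, |U t x i - w t x i| ≤ ε) ∧
      (∀ ρ : ℝ, 0 < ρ → ∃ δ : ℝ, 0 < δ ∧ ∀ t : ℝ, 0 < t → t ≤ δ → ∀ x i, Real.sqrt t * |U t x i| ≤ ρ) ∧
      (∀ s : ℝ, 2 < s →
        ∫⁻ t in Ioc (0 : ℝ) 1, (ENNReal.ofReal (Real.sqrt t) * ⨆ x, ‖U t x‖ₑ) ^ s / ENNReal.ofReal t ≠ ⊤) ∧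
      (∀ r : ℝ, 2 < r → critNorm r a ≠ ⊤ →
        Tendsto (fun t : ℝ => critNorm r (fun k => fc (U t) k - a k)) (𝓝[>] 0) (𝓝 0)) ∧
      (∀ wt : (Fin 3 → ℤ) → ℝ≥0∞, (∀ k, k ≠ 0 → wt k ≤ ENNReal.ofReal (1 / ∑ i, (k i : ℝ) ^ 2)) →
        ∑' k, wt k * ‖a k‖ₑ ≠ ⊤ →
        Tendsto (fun t : ℝ => ∑' k, wt k * ‖fc (U t) k - a k‖ₑ) (𝓝[>] 0) (𝓝 0)) ∧
      (normHMinusOneSq a ≠ ⊤ →
        Tendsto (fun t : ℝ => normHMinusOneSq (fun k => fc (U t) k - a k)) (𝓝[>] 0) (𝓝 0) ∧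
        (∀ T : ℝ, ∫⁻ t in Ioc 0 T, ∫⁻ x in Icc (0 : R3) 1, ‖U t x‖ₑ ^ 2 ≠ ⊤) ∧
        ∀ φ : ℝ → R3 → R3, TestField φ →
          IntegrableOn (fun z : ℝ × R3 => weakInt ν U φ z.1 z.2) (Ioi 0 ×ˢ Icc 0 1) ∧
          (∫ z in Ioi (0 : ℝ) ×ˢ Icc (0 : R3) 1, weakInt ν U φ z.1 z.2) + pairing a (φ 0) = 0) := by
  obtain ⟨U, h1, h2, h3, h3', h4, h5, h6⟩ := K1H11.NS.bif_main7 hν hw hm ha.real ha.divFree ha.mean hε
  exact ⟨U, h1, h2, h3, h3', h4, h5, fun hH => ⟨(h6 hH).1, (h6 hH).2, K1H52.L2.weak_form_H h1 (h6 hH).2 hH h5⟩⟩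

end Pool.Agent.Results.MP_6bf1e5_an.ArbitraryInitialValues
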