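import Pool.Agent.K1H11.NS5.Main
import Pool.Agent.K1H11.NS4.FamC

/-!
# The unforced problem for all data as a forced problem with small forces for one datum

Let `u₀` and `b₀` be any smooth periodic divergence free fields. There is a smooth periodic force `f`, which
acts only in an arbitrarily short time interval `(0, T)` and whose size in the critical space `L¹ₜ χ^{-1}` is at
most `C ν` with an absolute constant `C` (and arbitrarily small in `L¹ₜ FB^{-1}_{1,r}` for every `r > 2`), such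
that the forced problem with the initial velocity `u₀` has a global smooth solution if and only if the unforced
problem with the initial velocity `b₀` has. In fact after the time `T` the solutions are the same, up to the
symmetries of the equations. If the unforced problem has no global smooth solution for one datum `b₀`, then global
regularity fails for every datum `u₀`, zero included, with forces of critical size `C ν`.
-/

open MeasureTheory Set Filter Topology
open scoped ContDiff ENNReal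

namespace Pool.Agent.Results.MP_6bf1e5_an.CriticalForcing

open Pool.Agent.H356R3.NS (AdmissiblePeriodic R3 pd fc critNorm leiLin)

/-- `v` is an initial velocity of the periodic problem with mean `m`: `C^∞`, `ℤ³`-periodic and divergence free,
with `∫ v = m` over the period cell. -/
structure Datum (m : R3) (v : R3 → R3) : Prop where
  smooth : ContDiff ℝ ∞ v
  periodic : ∀ x j, v (x + Pi.single j 1) = v x
  divFree : ∀ x, ∑ i, pd i (fun y => v y i) x = 0
  mean : ∀ i, ∫ x in Icc (0 : R3) 1, v x i = m i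

/-- `f` is a force which acts only between the times `0` and `T`: `C^∞` on `ℝ × ℝ³`, `ℤ³`-periodic in `x`, zero for
`t ≤ 0` and for `t ≥ T`, with mean zero over the period cell at all times. -/
structure Force (T : ℝ) (f : ℝ → R3 → R3) : Prop where
  smooth : ContDiff ℝ ∞ (fun z : ℝ × R3 => f z.1 z.2)
  periodic : ∀ t x j, f t (x + Pi.single j 1) = f t x
  off : ∀ t, t ≤ 0 ∨ T ≤ t → f t = 0
  mean : ∀ t i, ∫ x in Icc (0 : R3) 1, f t x i = 0

/-- An admissible periodic solution of the problem with the force `f` and the initial velocity `v`: `u` and `p` are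
`C^∞` on `[0, ∞) × ℝ³` and `ℤ³`-periodic in `x`, `∂ₜuᵢ + ∑ⱼ uⱼ∂ⱼuᵢ = ν Δuᵢ - ∂ᵢp + fᵢ`, `div u = 0`, `u(0) = v`. -/
structure AdmissibleForced (ν : ℝ) (f : ℝ → R3 → R3) (v : R3 → R3) (u : ℝ → R3 → R3) (p : ℝ → R3 → ℝ) : Prop where
  smooth_u : ContDiffOn ℝ ∞ (fun z : ℝ × R3 => u z.1 z.2) (Ici 0 ×ˢ univ)
  smooth_p : ContDiffOn ℝ ∞ (fun z : ℝ × R3 => p z.1 z.2) (Ici 0 ×ˢ univ)
  periodic_u : ∀ t, 0 ≤ t → ∀ x j, u t (x + Pi.single j 1) = u t x
  periodic_p : ∀ t, 0 ≤ t → ∀ x j, p t (x + Pi.single j 1) = p t x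
  momentum : ∀ t, 0 ≤ t → ∀ x i,
    derivWithin (fun s => u s x i) (Ici 0) t + ∑ j, u t x j * pd j (fun y => u t y i) x
      = ν * ∑ j, pd j (pd j fun y => u t y i) x - pd i (p t) x + f t x i
  divFree : ∀ t, 0 ≤ t → ∀ x, ∑ i, pd i (fun y => u t y i) x = 0
  initial : u 0 = v

theorem Datum.sp {m : R3} {v : R3 → R3} (h : Datum m v) (i : Fin 3) : H459R3.NS.SP fun x => v x i :=
  ⟨contDiff_pi.1 h.smooth i, fun j x => by simp only [h.periodic x j]⟩

theorem AdmissibleForced.to {ν : ℝ} {f : ℝ → R3 → R3} {v : R3 → R3} {u : ℝ → R3 → R3} {p : ℝ → R3 → ℝ}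
    (h : AdmissibleForced ν f v u p) : K1H11.NS.AdmissibleForced ν f v u p :=
  ⟨h.smooth_u, h.smooth_p, h.periodic_u, h.periodic_p, h.momentum, h.divFree, h.initial⟩

theorem AdmissibleForced.of {ν : ℝ} {f : ℝ → R3 → R3} {v : R3 → R3} {u : ℝ → R3 → R3} {p : ℝ → R3 → ℝ}
    (h : K1H11.NS.AdmissibleForced ν f v u p) : AdmissibleForced ν f v u p :=
  ⟨h.smooth_u, h.smooth_p, h.periodic_u, h.periodic_p, h.momentum, h.divFree, h.initial⟩

/-- There is an absolute constant `C` such that for all viscosities `ν, ν' > 0`, all means `m, m' ∈ ℝ³`, all data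
`u₀` with mean `m` and `b₀` with mean `m'`, all `ε > 0` and all integers `J ≥ 1` there are times `0 < S < T ≤ ε` and a
force `f` which acts only between the times `0` and `T`, with `∫ ‖f(t)‖ dt ≤ C ν √J` in the Lei-Lin norm and
`∫ ‖f(t)‖ dt ≤ C ν J^(1/r - 1/2)` in the critical Fourier-Besov norm of `FB^{-1}_{1,r}` for all `r ≥ 1`, with the
following properties, in which `κ = ν / ν'` and `a = m - κ m'`.
(a) If `(w, q)` is an admissible (global smooth, unforced) solution with viscosity `ν'` and `w(0) = b₀`, then there is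
an admissible solution `(u, p)` of the problem with viscosity `ν`, force `f` and `u(0) = u₀`, with
`u(t, x) = κ w(κ (t - S), x - (t - S) a) + a` for all `t ≥ T`.
(b) If `(u, p)` is an admissible solution of the problem with viscosity `ν`, force `f` and `u(0) = u₀`, then there is
an admissible (unforced) solution `(w, q)` with viscosity `ν'` and `w(0) = b₀` and with the same relation. -/
theorem result : ∃ C : ℝ, 0 < C ∧ ∀ ν ν' : ℝ, 0 < ν → 0 < ν' → ∀ (m m' : R3) (u₀ b₀ : R3 → R3),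
    Datum m u₀ → Datum m' b₀ → ∀ ε : ℝ, 0 < ε → ∀ J : ℕ, 1 ≤ J →
    ∃ (f : ℝ → R3 → R3) (S T : ℝ), 0 < S ∧ S < T ∧ T ≤ ε ∧ Force T f ∧
      ∫⁻ t, leiLin (fun k => fc (f t) k) ≤ ENNReal.ofReal (C * ν * Real.sqrt J) ∧
      (∀ r : ℝ, 1 ≤ r → ∫⁻ t, critNorm r (fun k => fc (f t) k) ≤
        ENNReal.ofReal (C * ν * (J : ℝ) ^ (1 / r - 1 / 2))) ∧
      (∀ (w : ℝ → R3 → R3) (q : ℝ → R3 → ℝ), AdmissiblePeriodic ν' b₀ w q →
        ∃ (u : ℝ → R3 → R3) (p : ℝ → R3 → ℝ), AdmissibleForced ν f u₀ u p ∧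
          ∀ t, T ≤ t → ∀ x, u t x =
            (ν / ν') • w (ν / ν' * (t - S)) (x - (t - S) • (m - (ν / ν') • m')) + (m - (ν / ν') • m')) ∧
      (∀ (u : ℝ → R3 → R3) (p : ℝ → R3 → ℝ), AdmissibleForced ν f u₀ u p →
        ∃ (w : ℝ → R3 → R3) (q : ℝ → R3 → ℝ), AdmissiblePeriodic ν' b₀ w q ∧
          ∀ t, T ≤ t → ∀ x, u t x =
            (ν / ν') • w (ν / ν' * (t - S)) (x - (t - S) • (m - (ν / ν') • m')) + (m - (ν / ν') • m')) := by
  obtain ⟨C, hC, hmain⟩ := K1H11.NS.steer_main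
  refine ⟨C, hC, fun ν ν' hν hν' m m' u₀ b₀ hu hb ε hε J hJ => ?_⟩
  set κ : ℝ := ν / ν' with hκ
  set a : R3 := m - κ • m' with ha
  have hκ0 : 0 < κ := by positivity
  have hκν : κ * ν' = ν := by rw [hκ]; field_simp
  have hκν' : κ⁻¹ * ν = ν' := by rw [hκ]; field_simp
  have hb1 : ∀ i, H459R3.NS.SP fun x => K1H11.NS.aff κ a b₀ x i := K1H11.NS.aff_SP hb.sp κ a
  have hmean : ∀ i, ∫ x in H459R3.NS.cube, K1H11.NS.aff κ a b₀ x i = ∫ x in H459R3.NS.cube, u₀ x i := by
    intro i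
    rw [K1H11.NS.aff_mean hb.sp hb.mean]
    have : ∫ x in H459R3.NS.cube, u₀ x i = m i := hu.mean i
    rw [this, ha]
    show κ * m' i + (m i - κ * m' i) = m i
    ring
  obtain ⟨f, S, T, hS, hST, hT, f1, f2, f3, f4, f5, f6, f7, f8⟩ :=
    hmain ν hν u₀ (K1H11.NS.aff κ a b₀) hu.sp hu.divFree hb1 (K1H11.NS.aff_div hb.sp hb.divFree κ a) hmean ε hε J hJ
  refine ⟨f, S, T, hS, hST, hT, ⟨f1, f2, f3, f4⟩, f5, f6, fun w q hw => ?_, fun u p hup => ?_⟩
  · have h1 := K1H11.NS.adm_transform hκ0 a hw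
    rw [hκν] at h1
    obtain ⟨u, p, hup, heq⟩ := f7 _ _ h1
    refine ⟨u, p, AdmissibleForced.of hup, fun t ht x => ?_⟩
    rw [heq t ht]
    rfl
  · obtain ⟨w₁, q₁, hw₁, heq⟩ := f8 u p hup.to
    have hκi : 0 < κ⁻¹ := inv_pos.2 hκ0
    have h1 := K1H11.NS.adm_transform hκi (fun i => -(κ⁻¹ * a i)) hw₁
    rw [hκν'] at h1
    have e0 : (fun x i => κ⁻¹ * K1H11.NS.aff κ a b₀ x i + -(κ⁻¹ * a i)) = b₀ := K1H11.NS.aff_inv hκ0 a b₀
    rw [e0] at h1
    refine ⟨_, _, h1, fun t ht x => ?_⟩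
    rw [heq t ht]
    funext i
    show w₁ (t - S) x i = κ * (κ⁻¹ * w₁ (κ⁻¹ * (κ * (t - S)))
      (x - (t - S) • a - (κ * (t - S)) • (fun i => -(κ⁻¹ * a i))) i + -(κ⁻¹ * a i)) + a i
    have e1 : κ⁻¹ * (κ * (t - S)) = t - S := by field_simp
    have e2 : x - (t - S) • a - (κ * (t - S)) • (fun i => -(κ⁻¹ * a i)) = x := by
      funext j
      simp only [Pi.sub_apply, Pi.smul_apply, smul_eq_mul]
      field_simp
      ring
    rw [e1, e2]
    field_simp
    ring

end Pool.Agent.Results.MP_6bf1e5_an.CriticalForcing
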