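import Pool.Agent.K1H11.NS8.Glue

/-!
# Every smooth solution continues for all times, smoothly except at one time

Let `(u, p)` be any smooth periodic solution of the Navier-Stokes equations on `[0, T)`, for instance the classical
solution of any smooth datum up to its time of breakdown, if it breaks down, and let `w` be any global smooth periodic
solution with the same mean. There is a velocity field `U` on `[0, ∞) × ℝ³` which is `u` on `[0, T)`, which is a
smooth solution on `(T, ∞)`, within `ε` of `w` from the time `T + ε` on, and which is a weak solution on `[0, ∞)`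
of the Cauchy problem with the initial value `u(0)` (so every smooth datum has a global weak solution with
at most one singular time, the time of breakdown of the classical solution). At the time `T` the field `U` is
continuous with values in `H⁻¹`, its value `a` at the time `T` is square integrable, and
`√(t - T) ‖U(t)‖_∞ → 0` as `t ↓ T`, `∫_T^{T+1} (√(t - T) ‖U(t)‖_∞)^s dt/(t - T) < ∞` for all `s > 2`.
-/

open MeasureTheory Set Filter Topology
open scoped ContDiff ENNReal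

namespace Pool.Agent.Results.MP_6bf1e5_an.OneSingularTime

open Pool.Agent.H356R3.NS (AdmissiblePeriodic R3 fc critNorm)
open Pool.Agent.K1H11.NS (TestField weakInt)
open H459R3.NS (IsSol energy)

/-- The square of the norm of `H⁻¹` of the part of the field with mean zero: the sum of `|a(k)|² / |k|²` over
`k ≠ 0`. -/
noncomputable def normHMinusOneSq (a : (Fin 3 → ℤ) → Fin 3 → ℂ) : ℝ≥0∞ :=
  ∑' k, if k = 0 then 0 else ‖a k‖ₑ ^ 2 / ENNReal.ofReal (∑ i, (k i : ℝ) ^ 2)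

/-- Let `ν > 0`, `T > 0`, let `(u, p)` be a smooth (unforced) periodic solution on `[0, T)` and `(w, q)` an admissible
(global smooth, unforced) periodic solution with the same mean, and let `ε > 0`. There are `U : ℝ → R3 → R3` and
`a : ℤ³ → ℂ³`, the value at the time `T`, such that
(i) `U(t) = u(t)` for `t < T`,
(ii) for all `t₀ > T` there is a pressure with which `t ↦ U(t₀ + t)`, `t ≥ 0`, is an admissible periodic solution
with initial velocity `U(t₀)`,
(iii) `|U(t) - w(t - T)| ≤ ε` at all times `t ≥ T + ε`, uniformly in space,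
(iv) `√(t - T) ‖U(t)‖_∞ → 0` as `t ↓ T`, and `∫_T^{T+1} (√(t - T) ‖U(t)‖_∞)^s dt/(t - T) < ∞` for all `s > 2`,
(v) `∑ |a(k)|² ≤ ∫ |u(0)|²`, and `U(t) → a` in `H⁻¹` (modulo the mean, which is conserved) as `t → T`, from both
sides,
(vi) for all `r > 2` with `‖a‖ < ∞` in the critical Fourier-Besov space `FB^{-1}_{1,r}` we have `U(t) → a` in
`FB^{-1}_{1,r}` as `t ↓ T`,
(vii) `∫_0^R ∫ |U|² dx dt < ∞` for all `R`, and for all smooth periodic divergence free test fields `φ` on `ℝ × ℝ³`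
which vanish for large times
`∫_0^∞ ∫ (U · ∂_t φ + ν U · Δφ + ∑ U_i U_j ∂_j φ_i) dx dt + ∫ u(0) · φ(0) dx = 0`. -/
theorem result (ν T : ℝ) (hν : 0 < ν) (hT : 0 < T) (u : ℝ → R3 → R3) (p : ℝ → R3 → ℝ) (hu : IsSol ν T u p)
    (w₀ : R3 → R3) (w : ℝ → R3 → R3) (q : ℝ → R3 → ℝ) (hw : AdmissiblePeriodic ν w₀ w q)
    (hm : ∀ i, ∫ x in Icc (0 : R3) 1, w₀ x i = ∫ x in Icc (0 : R3) 1, u 0 x i) (ε : ℝ) (hε : 0 < ε) :
    ∃ (U : ℝ → R3 → R3) (a : (Fin 3 → ℤ) → Fin 3 → ℂ),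
      (∀ t : ℝ, t < T → U t = u t) ∧
      (∀ t₀ : ℝ, T < t₀ → ∃ p' : ℝ → R3 → ℝ, AdmissiblePeriodic ν (U t₀) (fun t => U (t₀ + t)) p') ∧
      (∀ t : ℝ, T + ε ≤ t → ∀ x i, |U t x i - w (t - T) x i| ≤ ε) ∧
      (∀ ρ : ℝ, 0 < ρ → ∃ δ : ℝ, 0 < δ ∧ ∀ t : ℝ, T < t → t ≤ T + δ → ∀ x i,
        Real.sqrt (t - T) * |U t x i| ≤ ρ) ∧
      (∀ s : ℝ, 2 < s → ∫⁻ t in Ioc T (T + 1),
        (ENNReal.ofReal (Real.sqrt (t - T)) * ⨆ x, ‖U t x‖ₑ) ^ s / ENNReal.ofReal (t - T) ≠ ⊤) ∧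
      ∑' k, ‖a k‖ₑ ^ 2 ≤ ENNReal.ofReal (energy (u 0)) ∧
      Tendsto (fun t : ℝ => normHMinusOneSq (fun k => fc (U t) k - a k)) (𝓝[≠] T) (𝓝 0) ∧
      (∀ r : ℝ, 2 < r → critNorm r a ≠ ⊤ →
        Tendsto (fun t : ℝ => critNorm r (fun k => fc (U t) k - a k)) (𝓝[>] T) (𝓝 0)) ∧
      (∀ R : ℝ, ∫⁻ t in Ioc 0 R, ∫⁻ x in Icc (0 : R3) 1, ‖U t x‖ₑ ^ 2 ≠ ⊤) ∧
      ∀ φ : ℝ → R3 → R3, TestField φ →
        IntegrableOn (fun z : ℝ × R3 => weakInt ν U φ z.1 z.2) (Ioi 0 ×ˢ Icc 0 1) ∧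
        (∫ z in Ioi (0 : ℝ) ×ˢ Icc (0 : R3) 1, weakInt ν U φ z.1 z.2) +
          ∫ x in Icc (0 : R3) 1, ∑ i, u 0 x i * φ 0 x i = 0 :=
  K1H11.NS.continuation hν hT hu hw hm hε

end Pool.Agent.Results.MP_6bf1e5_an.OneSingularTime
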