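import Pool.Agent.K1H11.NS4.FamC

/-!
# A zero-one law for families of initial velocities

Let `Θ` be a compact space (a point, a cube `[0,1]^n`, a sphere, the Hilbert cube, ...). Either, for all
viscosities and means, every continuous `Θ`-family of initial velocities is arbitrarily near (in the Lei-Lin
metric) a family of initial velocities which robustly have global smooth solutions, or, for all viscosities and
means, there are within the distance `C ν` of every `Θ`-family `u₀` balls of families all of which contain an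
initial velocity without a global smooth solution (and arbitrarily near `u₀` in the critical norms of
`FB^{-1}_{1,r}`, `r > 2`). For a one-point `Θ` this is a zero-one law for generic global regularity.
-/

open MeasureTheory Set Filter Topology
open scoped ContDiff ENNReal

namespace Pool.Agent.Results.MP_6bf1e5_an.ZeroOneLaw

open Pool.Agent.H356R3.NS (AdmissiblePeriodic R3 pd fc critNorm leiLin)

/-- `v` is an initial velocity of the periodic problem with mean `m`: `C^∞`, `ℤ³`-periodic and divergence free,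
with `∫ v = m` over the period cell. -/
structure Datum (m : R3) (v : R3 → R3) : Prop where
  smooth : ContDiff ℝ ∞ v
  periodic : ∀ x j, v (x + Pi.single j 1) = v x
  divFree : ∀ x, ∑ i, pd i (fun y => v y i) x = 0
  mean : ∀ i, ∫ x in Icc (0 : R3) 1, v x i = m i

/-- `v` is a family of initial velocities with mean `m`, continuous in the parameter in the `C^∞` topology: for
all `n` the norm `∑_k (1 + |k|₁)^n |a(k)|` of the Fourier coefficients of `v θ - v θ₀` tends to `0` as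
`θ → θ₀`. -/
structure Family {Θ : Type} [TopologicalSpace Θ] (m : R3) (v : Θ → R3 → R3) : Prop where
  datum : ∀ θ, Datum m (v θ)
  cont : ∀ (n : ℕ) (θ₀ : Θ), Tendsto (fun θ => ∑' k : Fin 3 → ℤ,
    ENNReal.ofReal ((1 + ∑ i, |(k i : ℝ)|) ^ n) * ‖fc (v θ) k - fc (v θ₀) k‖ₑ) (𝓝 θ₀) (𝓝 0)

/-- There is an admissible (global smooth, unforced, periodic) solution with initial velocity `v`. -/
def Good (ν : ℝ) (v : R3 → R3) : Prop := ∃ (u : ℝ → R3 → R3) (p : ℝ → R3 → ℝ), AdmissiblePeriodic ν v u p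

theorem Datum.sp {m : R3} {v : R3 → R3} (h : Datum m v) (i : Fin 3) : H459R3.NS.SP fun x => v x i :=
  ⟨contDiff_pi.1 h.smooth i, fun j x => by simp only [h.periodic x j]⟩

theorem Datum.of {m : R3} {v : R3 → R3} (h1 : ∀ i, H459R3.NS.SP fun x => v x i)
    (h2 : ∀ x, ∑ i, H459R3.NS.pd i (fun y => v y i) x = 0)
    (h3 : ∀ i, ∫ x in H459R3.NS.cube, v x i = m i) : Datum m v :=
  ⟨contDiff_pi.2 fun i => (h1 i).smooth, fun x j => funext fun i => (h1 i).per j x, h2, h3⟩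

theorem Family.uc {Θ : Type} [TopologicalSpace Θ] [CompactSpace Θ] {m : R3} {v : Θ → R3 → R3}
    (h : Family m v) (i : Fin 3) : K1H11.NS.UC fun θ x => v θ x i :=
  K1H11.NS.UC_of_wd (fun θ => (h.datum θ).sp) h.cont i

theorem Family.of {Θ : Type} [TopologicalSpace Θ] {m : R3} {v : Θ → R3 → R3}
    (h1 : ∀ i, K1H11.NS.UC fun θ x => v θ x i)
    (h2 : ∀ θ x, ∑ i, H459R3.NS.pd i (fun y => v θ y i) x = 0)
    (h3 : ∀ θ i, ∫ x in H459R3.NS.cube, v θ x i = m i) : Family m v :=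
  ⟨fun θ => Datum.of (fun i => (h1 i).sp θ) (h2 θ) (h3 θ), K1H11.NS.wd_of_UC h1⟩

/-- There is an absolute constant `C` such that for every compact space `Θ` one of the following holds.
(i) For all `ν > 0`, all `m ∈ ℝ³`, every family `b₀ : Θ → data` with mean `m` and every `ε > 0` there are a
family `v₀` with mean `m`, with `v₀ θ` at Lei-Lin distance at most `ε` from `b₀ θ` for all `θ`, and a `δ > 0`
such that all data `z₀` with mean `m` at Lei-Lin distance at most `δ` from some `v₀ θ` have admissible solutions.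
(ii) For all `ν > 0`, all `m ∈ ℝ³`, every family `u₀ : Θ → data` with mean `m`, all `0 < η ≤ 1`, `ε > 0` and all
integers `J ≥ 1`, `K ≥ 0` there is a family `v₀` with mean `m` such that outside one set of measure at most `η`
in the period cell all `v₀ θ` are equal to `u₀ θ`, and such that for all `θ` we have
`‖v₀ θ - u₀ θ‖ ≤ C ν √J / η` in the Lei-Lin norm, `‖v₀ θ - u₀ θ‖ ≤ C ν J^(1/r - 1/2) / η` in the norm of
`FB^{-1}_{1,r}` for all `r ≥ 1` and all Fourier coefficients of `v₀ θ - u₀ θ` at the frequencies `|k|_∞ ≤ K` are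
at most `ε`; and there is a `δ > 0` such that every family `z` with mean `m` and with `z θ` at Lei-Lin distance at
most `δ` from `v₀ θ` for all `θ` contains a datum `z θ` without an admissible solution. -/
theorem result : ∃ C : ℝ, 0 < C ∧ ∀ (Θ : Type) [TopologicalSpace Θ] [CompactSpace Θ],
    (∀ ν : ℝ, 0 < ν → ∀ (m : R3) (b₀ : Θ → R3 → R3), Family m b₀ → ∀ ε : ℝ, 0 < ε →
      ∃ v₀ : Θ → R3 → R3, Family m v₀ ∧
        (∀ θ, leiLin (fun k => fc (v₀ θ) k - fc (b₀ θ) k) ≤ ENNReal.ofReal ε) ∧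
        ∃ δ : ℝ, 0 < δ ∧ ∀ (θ : Θ) (z₀ : R3 → R3), Datum m z₀ →
          leiLin (fun k => fc z₀ k - fc (v₀ θ) k) ≤ ENNReal.ofReal δ → Good ν z₀) ∨
    (∀ ν : ℝ, 0 < ν → ∀ (m : R3) (u₀ : Θ → R3 → R3), Family m u₀ →
      ∀ η ε : ℝ, 0 < η → η ≤ 1 → 0 < ε → ∀ J K : ℕ, 1 ≤ J →
      ∃ v₀ : Θ → R3 → R3, Family m v₀ ∧
        volume {x | x ∈ Icc (0 : R3) 1 ∧ ∃ θ, v₀ θ x ≠ u₀ θ x} ≤ ENNReal.ofReal η ∧
        (∀ θ, leiLin (fun k => fc (v₀ θ) k - fc (u₀ θ) k) ≤ ENNReal.ofReal (C * ν * Real.sqrt J / η)) ∧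
        (∀ (θ : Θ) (r : ℝ), 1 ≤ r → critNorm r (fun k => fc (v₀ θ) k - fc (u₀ θ) k) ≤
          ENNReal.ofReal (C * ν * (J : ℝ) ^ (1 / r - 1 / 2) / η)) ∧
        (∀ (θ : Θ) (k : Fin 3 → ℤ), (∀ i, |k i| ≤ K) → ‖fc (v₀ θ) k - fc (u₀ θ) k‖ ≤ ε) ∧
        ∃ δ : ℝ, 0 < δ ∧ ∀ z : Θ → R3 → R3, Family m z →
          (∀ θ, leiLin (fun k => fc (z θ) k - fc (v₀ θ) k) ≤ ENNReal.ofReal δ) → ∃ θ, ¬ Good ν (z θ)) := by
  obtain ⟨C, hC0, hC⟩ := K1H11.NS.famB_main
  refine ⟨C, hC0, fun Θ _ _ => ?_⟩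
  by_cases hcase : ∃ ν : ℝ, 0 < ν ∧ ∃ m : R3, K1H11.NS.Approx Θ ν m
  · left
    obtain ⟨ν', hν', m', happ⟩ := hcase
    intro ν hν m b₀ hb ε hε
    obtain ⟨v₀, hv1, hv2, hv3, hv4, hv5⟩ := happ.all hν' hν m b₀ hb.uc (fun θ => (hb.datum θ).divFree)
      (fun θ => (hb.datum θ).mean) ε hε
    obtain ⟨δ, hδ, hopen⟩ := K1H11.NS.good_open_fam hν hv1 hv3 hv5
    exact ⟨v₀, Family.of hv1 hv2 hv3, hv4, δ, hδ, fun θ z₀ hz hzl => hopen θ z₀ hz.sp hz.divFree hz.mean hzl⟩
  · right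
    intro ν hν m u₀ hu η ε h0 h1 hε J K hJ
    have hna : ¬ K1H11.NS.Approx Θ ν m := fun h => hcase ⟨ν, hν, m, h⟩
    unfold K1H11.NS.Approx at hna
    push Not at hna
    obtain ⟨b₀, hb1, hb2, hb3, ε', hε', hbad⟩ := hna
    obtain ⟨v₀, a1, a2, a3, a4, a5, a6, a7, δ, hδ, a8⟩ :=
      hC ν hν Θ m b₀ hb1 hb2 hb3 ε' hε' (fun g h1 h2 h3 h4 => by
        obtain ⟨θ, hθ⟩ := hbad g h1 h2 h3 h4
        exact ⟨θ, fun ⟨u, p, hup⟩ => hθ u p hup⟩) u₀ hu.uc (fun θ => (hu.datum θ).divFree)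
        (fun θ => (hu.datum θ).mean) η ε h0 h1 hε J K hJ
    exact ⟨v₀, Family.of a1 a2 a3, a4, a5, a6, a7, δ, hδ, fun z hz hzl =>
      a8 z hz.uc (fun θ => (hz.datum θ).divFree) (fun θ => (hz.datum θ).mean) hzl⟩

end Pool.Agent.Results.MP_6bf1e5_an.ZeroOneLaw
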